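import Mathlib
import Pool.Agent.H829Z.MaderT

set_option autoImplicit false

namespace Pool.Agent.Results.MP_ab2d80_co.ArcBound

/-- If every loopless digraph of dichromatic number at least `t` (no colouring with `t - 1`
colours whose classes admit a topological order) contains a subdivision of the loopless digraph
`F`, then `F` has `O(t log t)` arcs. With `t = k` the order of `F` this is `m(k) = O(k log k)`. -/
theorem result :
    ∃ C : ℕ, ∀ k t : ℕ, ∀ F : Digraph (Fin k), (∀ v, ¬ F.Adj v v) →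
      (∀ n : ℕ, ∀ D : Digraph (Fin n), (∀ v, ¬ D.Adj v v) →
        (¬ ∃ c : Fin n → Fin (t - 1), ∃ f : Fin n → ℕ,
            ∀ u v, D.Adj u v → c u = c v → f u < f v) →
        ∃ φ : Fin k → Fin n, ∃ ℓ : Fin k → Fin k → ℕ, ∃ p : Fin k → Fin k → ℕ → Fin n,
          Function.Injective φ ∧
          (∀ u v, F.Adj u v →
            1 ≤ ℓ u v ∧ p u v 0 = φ u ∧ p u v (ℓ u v) = φ v ∧
            (∀ i, i < ℓ u v → D.Adj (p u v i) (p u v (i + 1))) ∧
            (∀ i, 0 < i → i < ℓ u v → ∀ w, p u v i ≠ φ w) ∧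
            (∀ u' v', F.Adj u' v' → ∀ i j, 0 < i → i < ℓ u v → 0 < j →
              j < ℓ u' v' → p u v i = p u' v' j → u = u' ∧ v = v' ∧ i = j))) →
      {q : Fin k × Fin k | F.Adj q.1 q.2}.ncard ≤ C * t * (Nat.log 2 t + 1) :=
  ⟨228, Pool.Agent.H829Z.MaderT.main⟩

end Pool.Agent.Results.MP_ab2d80_co.ArcBound
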